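import Pool.Agent.LKU.Stmts
import Pool.Agent.Helper72_LKT.RC4

/-!
# Row RC4 of squad LKU (MP_e0fe99_lc): reach of the unit links
-/

set_option autoImplicit false

namespace Pool.Agent.LKU.H72

open Pool.Agent.LCK Pool.Agent.LKT Pool.Agent.LKT.H72

theorem prc_of_meet {a b c d e : E3} (h : Meet a b c d e) : Prc a b c d e := by
  obtain ⟨s, t1, t2, t3, hs, hs1, h1, h2, h3, hsum, he⟩ := h
  refine ⟨s, t2, t3, ⟨hs, hs1, h2, h3, by linarith⟩, ?_⟩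
  have e1 : a + s • (b - a) = (1 - s) • a + s • b := by module
  have e2 : c + t2 • (d - c) + t3 • (e - c) = t1 • c + t2 • d + t3 • e := by
    have : t1 = 1 - t2 - t3 := by linarith
    rw [this]; module
  rw [e1, e2, he]

theorem prc_flip {a b c d e : E3} (h : Prc a b c d e) : Prc b a c d e := by
  obtain ⟨s, t2, t3, ⟨hs, hs1, h2, h3, h4⟩, he⟩ := h
  refine ⟨1 - s, t2, t3, ⟨by linarith, by linarith, h2, h3, h4⟩, ?_⟩
  rw [← he]; module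

theorem prc_swap {a b c d e : E3} (h : Prc a b c d e) : Prc a b c e d := by
  obtain ⟨s, t2, t3, ⟨hs, hs1, h2, h3, h4⟩, he⟩ := h
  refine ⟨s, t3, t2, ⟨hs, hs1, h3, h2, by linarith⟩, ?_⟩
  rw [he]; module

/-- The reach. -/
theorem rc4 : Rc4Stmt := by
  intro x h21 h32 h43 h54 h65 d24 d35 m1 m2 m3 m4
  have hp5 : Prc (x 2) (x 1) (x 3) (x 4) (x 5) := prc_flip (prc_of_meet m1)
  have hp : Prc (x 2) (x 1) (x 5) (x 6) (x 4) :=
    prc_swap (prc_rot (prc_flip (prc_of_meet m2)))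
  have hr : Prc (x 5) (x 6) (x 2) (x 1) (x 3) := prc_rot (prc_of_meet m3)
  have hr2 : Prc (x 5) (x 6) (x 4) (x 3) (x 2) :=
    prc_swap (prc_rot (prc_swap (prc_of_meet m4)))
  have h12 : ‖x 1 - x 2‖ = 1 := by rw [norm_sub_rev]; exact h21
  have h34 : ‖x 3 - x 4‖ = 1 := by rw [norm_sub_rev]; exact h43
  have h45 : ‖x 4 - x 5‖ = 1 := by rw [norm_sub_rev]; exact h54
  refine ⟨?_, ?_, ?_, ?_, ?_⟩
  · rw [norm_sub_rev]
    exact two_of_base _ _ _ _ _ (prc_rot hp5) h12 h34 h54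
  · rw [norm_sub_rev]
    exact two_of_base _ _ _ _ _ hp h12 h65 h45
  · exact two_of_base _ _ _ _ _ hr h65 h12 h32
  · exact two_of_base _ _ _ _ _ (prc_rot hr2) h65 h43 (by rw [norm_sub_rev]; exact h32)
  · refine reach_five (x 1) (x 2) (x 3) (x 4) (x 5) (x 6) h12 h32 h43 h45 h65 d24 d35 ?_ ?_ ?_ ?_
    · obtain ⟨s, e, f, ⟨h1, h2, h3, h4, h5⟩, h6⟩ := hr
      exact ⟨e, f, s, h3, h4, h5, h1, h2, h6⟩
    · obtain ⟨s, e, f, ⟨h1, h2, h3, h4, h5⟩, h6⟩ := hp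
      exact ⟨s, e, f, h3, h4, h5, h1, h2, h6⟩
    · obtain ⟨s, e, f, ⟨h1, h2, h3, h4, h5⟩, h6⟩ := hp5
      exact ⟨s, e, f, h1, h2, h3, h4, h5, h6⟩
    · obtain ⟨s, e, f, ⟨h1, h2, h3, h4, h5⟩, h6⟩ := hr2
      exact ⟨s, e, f, h1, h2, h3, h4, h5, h6⟩

end Pool.Agent.LKU.H72
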