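import Pool.Agent.Helper72_LKU.RC4

/-!
# Reach in the class 6_2 for the inner lengths 1, b, 1, b, 1 (MP_e0fe99_lc)
-/

set_option autoImplicit false

namespace Pool.Agent.LKU.H72

open Pool.Agent.LCK Pool.Agent.LKT Pool.Agent.LKT.H72

section

variable {V : Type*} [NormedAddCommGroup V] [InnerProductSpace ℝ V]

/-- The half lemma. -/
theorem half_b (b : ℝ) (hb : 1 < b) (v1 v2 v3 v4 v5 v6 : V)
    (h12 : ‖v1 - v2‖ = 1) (h23 : ‖v3 - v2‖ = b) (h34 : ‖v4 - v3‖ = 1) (h56 : ‖v6 - v5‖ = 1)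
    (hr : ∃ α β τ : ℝ, 0 ≤ α ∧ 0 ≤ β ∧ α + β ≤ 1 ∧ 0 ≤ τ ∧ τ ≤ 1 ∧
      v5 + τ • (v6 - v5) = v2 + α • (v1 - v2) + β • (v3 - v2))
    (hp5 : ∃ s e4 e5 : ℝ, 0 ≤ s ∧ s ≤ 1 ∧ 0 ≤ e4 ∧ 0 ≤ e5 ∧ e4 + e5 ≤ 1 ∧
      v2 + s • (v1 - v2) = v3 + e4 • (v4 - v3) + e5 • (v5 - v3)) :
    ‖v6 - v1‖ ≤ 1 + b ∨ ∀ k : ℝ, 0 ≤ k → k ^ 2 ≤ b ^ 2 - 1 → 2 * k ≤ ‖v5 - v2‖ →
      k ≤ inner ℝ (v1 - v2) (v3 - v2) := by
  obtain ⟨α, β, τ, hα, hβ, hab, hτ, hτ1, hr⟩ := hr
  obtain ⟨s, e4, e5, hs, -, he4, he5, hee, hp⟩ := hp5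
  rcases eq_or_lt_of_le (show α ≤ 1 by linarith) with h1 | h1
  · left
    have hβ0 : β = 0 := by linarith
    have h2 : v6 - v1 = (1 - τ) • (v6 - v5) := by
      rw [h1, hβ0, one_smul, zero_smul, add_zero] at hr
      have h3 : v1 = v5 + τ • (v6 - v5) := by rw [hr]; abel
      rw [h3, sub_smul, one_smul]; abel
    rw [h2, norm_smul, h56, mul_one, Real.norm_eq_abs, abs_of_nonneg (by linarith)]
    linarith
  · obtain ⟨t, ht⟩ : ∃ t, t = β / (1 - α) := ⟨_, rfl⟩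
    have h1a : 0 < 1 - α := by linarith
    have ht0 : 0 ≤ t := by rw [ht]; positivity
    have ht1 : t ≤ 1 := by rw [ht, div_le_one h1a]; linarith
    have hβt : β = (1 - α) * t := by rw [ht]; field_simp
    by_cases hc : t * b ≤ ‖v5 - (v2 + t • (v3 - v2))‖
    · left
      obtain ⟨y, hy⟩ : ∃ y, y = v2 + t • (v3 - v2) := ⟨_, rfl⟩
      rw [← hy] at hc
      have e1 : v6 - v1 = (1 - α) • (y - v1) + (1 - τ) • (v6 - v5) := by
        have e2 : v5 + τ • (v6 - v5) = v1 + (1 - α) • (y - v1) := by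
          rw [hr, hy, hβt]; module
        have e3 : v6 = (v5 + τ • (v6 - v5)) + (1 - τ) • (v6 - v5) := by module
        nth_rewrite 1 [e3]
        rw [e2]; abel
      have e4' : v5 - y = α • (v1 - y) - τ • (v6 - v5) := by
        have e2 : v5 + τ • (v6 - v5) = y + α • (v1 - y) := by
          rw [hr, hy, hβt]; module
        have e3 : v5 = (v5 + τ • (v6 - v5)) - τ • (v6 - v5) := by abel
        nth_rewrite 1 [e3]
        rw [e2]; abel
      have n1 : ‖v6 - v1‖ ≤ (1 - α) * ‖y - v1‖ + (1 - τ) := by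
        rw [e1]
        refine (norm_add_le _ _).trans ?_
        rw [norm_smul, norm_smul, h56, mul_one, Real.norm_eq_abs, Real.norm_eq_abs,
          abs_of_nonneg h1a.le, abs_of_nonneg (by linarith)]
      have n2 : ‖v5 - y‖ ≤ α * ‖y - v1‖ + τ := by
        rw [e4']
        refine (norm_sub_le _ _).trans ?_
        rw [norm_smul, norm_smul, h56, mul_one, Real.norm_eq_abs, Real.norm_eq_abs,
          abs_of_nonneg hα, abs_of_nonneg hτ, norm_sub_rev v1 y]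
      have n3 : ‖y - v1‖ ≤ 1 + t * b := by
        have e5' : y - v1 = -(v1 - v2) + t • (v3 - v2) := by rw [hy]; abel
        rw [e5']
        refine (norm_add_le _ _).trans ?_
        rw [norm_neg, h12, norm_smul, h23, Real.norm_eq_abs, abs_of_nonneg ht0]
      nlinarith
    · right
      intro k hk hk2 hkw
      rw [not_le] at hc
      obtain ⟨w, hw⟩ : ∃ w, w = v5 - v2 := ⟨_, rfl⟩
      obtain ⟨a, ha⟩ : ∃ a, a = v3 - v2 := ⟨_, rfl⟩
      obtain ⟨u, hu⟩ : ∃ u, u = v4 - v2 := ⟨_, rfl⟩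
      obtain ⟨n, hn⟩ : ∃ n, n = v1 - v2 := ⟨_, rfl⟩
      rw [← hw] at hkw
      have hc1 : ‖w - t • a‖ < t * b := by
        have : v5 - (v2 + t • (v3 - v2)) = w - t • a := by rw [hw, ha]; abel
        rwa [this] at hc
      have na : ‖a‖ = b := by rw [ha]; exact h23
      have haa : inner ℝ a a = b ^ 2 := by rw [real_inner_self_eq_norm_sq, na]
      have hb0 : 0 < b := by linarith
      have h4 : ‖w‖ ^ 2 < 2 * (t * inner ℝ w a) := by
        have h3 : ‖w - t • a‖ ^ 2 < (t * b) ^ 2 := by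
          have := norm_nonneg (w - t • a)
          nlinarith
        rw [@norm_sub_sq_real, norm_smul, na, Real.norm_eq_abs, mul_pow, sq_abs,
          real_inner_smul_right] at h3
        nlinarith
      have hwa : 0 < inner ℝ w a := by
        have h5 : 0 < t * inner ℝ w a := by nlinarith [sq_nonneg ‖w‖]
        exact (pos_iff_pos_of_mul_pos h5).1 (lt_of_le_of_ne ht0 (by rintro rfl; simp at h5))
      have hwa2 : ‖w‖ ^ 2 ≤ 2 * inner ℝ w a := by nlinarith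
      have hua : 2 * inner ℝ u a = ‖u‖ ^ 2 + b ^ 2 - 1 := by
        have h3 : ‖u - a‖ = 1 := by
          have : u - a = v4 - v3 := by rw [hu, ha]; abel
          rw [this]; exact h34
        have h4 : ‖u - a‖ ^ 2 = 1 := by rw [h3]; norm_num
        rw [@norm_sub_sq_real, na] at h4
        linarith
      have hbb : 0 < b ^ 2 - 1 := by nlinarith
      have hua0 : 0 < inner ℝ u a := by nlinarith [sq_nonneg ‖u‖]
      have key : s • n = (1 - e4 - e5) • a + e4 • u + e5 • w := by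
        have e1 : s • n = (v2 + s • (v1 - v2)) - v2 := by rw [hn]; abel
        rw [e1, hp, ha, hu, hw]; module
      have k2 : s * inner ℝ n a =
          (1 - e4 - e5) * b ^ 2 + e4 * inner ℝ u a + e5 * inner ℝ w a := by
        rw [← real_inner_smul_left, key, inner_add_left, inner_add_left, real_inner_smul_left,
          real_inner_smul_left, real_inner_smul_left, haa]
      have nn : ‖n‖ = 1 := by rw [hn]; exact h12
      have k3 : s ≤ (1 - e4 - e5) * b + e4 * ‖u‖ + e5 * ‖w‖ := by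
        have e1 : ‖s • n‖ = s := by rw [norm_smul, nn, mul_one, Real.norm_eq_abs, abs_of_nonneg hs]
        rw [← e1, key]
        refine (norm_add₃_le).trans ?_
        rw [norm_smul, norm_smul, norm_smul, na, Real.norm_eq_abs, Real.norm_eq_abs,
          Real.norm_eq_abs, abs_of_nonneg he4, abs_of_nonneg he5, abs_of_nonneg (by linarith)]
      have hkb : k ≤ b := by
        by_contra hcon
        rw [not_le] at hcon
        have : b ^ 2 ≤ k ^ 2 := pow_le_pow_left₀ hb0.le hcon.le 2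
        linarith
      have q1 : k * b ≤ b ^ 2 := by
        rw [pow_two]
        exact mul_le_mul_of_nonneg_right hkb hb0.le
      have q2 : k * ‖u‖ ≤ inner ℝ u a := by
        have := sq_nonneg (‖u‖ - k)
        rw [sub_sq] at this
        linarith
      have q3 : k * ‖w‖ ≤ inner ℝ w a := by
        have := mul_le_mul_of_nonneg_right hkw (norm_nonneg w)
        rw [pow_two] at hwa2
        linarith
      have r1 : (1 - e4 - e5) * (k * b) ≤ (1 - e4 - e5) * b ^ 2 :=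
        mul_le_mul_of_nonneg_left q1 (by linarith)
      have r2 : e4 * (k * ‖u‖) ≤ e4 * inner ℝ u a := mul_le_mul_of_nonneg_left q2 he4
      have r3 : e5 * (k * ‖w‖) ≤ e5 * inner ℝ w a := mul_le_mul_of_nonneg_left q3 he5
      have r4 : k * s ≤ k * ((1 - e4 - e5) * b + e4 * ‖u‖ + e5 * ‖w‖) :=
        mul_le_mul_of_nonneg_left k3 hk
      have r5 : k * s ≤ s * inner ℝ n a := by
        rw [k2]
        have : k * ((1 - e4 - e5) * b + e4 * ‖u‖ + e5 * ‖w‖) =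
          (1 - e4 - e5) * (k * b) + e4 * (k * ‖u‖) + e5 * (k * ‖w‖) := by ring
        linarith
      rw [← hn, ← ha]
      rcases eq_or_lt_of_le hs with h0 | h0
      · exfalso
        rw [← h0, zero_mul] at k2
        have p1 : 0 ≤ (1 - e4 - e5) * b ^ 2 := mul_nonneg (by linarith) (sq_nonneg _)
        have p2 : 0 ≤ e4 * inner ℝ u a := mul_nonneg he4 hua0.le
        have p3 : 0 ≤ e5 * inner ℝ w a := mul_nonneg he5 hwa.le
        have z1 : (1 - e4 - e5) * b ^ 2 = 0 := by linarith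
        have z2 : e4 * inner ℝ u a = 0 := by linarith
        have z3 : e5 * inner ℝ w a = 0 := by linarith
        have y1 : 1 - e4 - e5 = 0 := by
          rcases mul_eq_zero.1 z1 with h | h
          · exact h
          · exact absurd h (by positivity)
        have y2 : e4 = 0 := by
          rcases mul_eq_zero.1 z2 with h | h
          · exact h
          · exact absurd h hua0.ne'
        have y3 : e5 = 0 := by
          rcases mul_eq_zero.1 z3 with h | h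
          · exact h
          · exact absurd h hwa.ne'
        rw [y2, y3] at y1
        norm_num at y1
      · by_contra hcon
        rw [not_le] at hcon
        have := mul_lt_mul_of_pos_left hcon h0
        linarith

theorem first_part (α β b k : ℝ) (hα : 0 ≤ α) (hβ : 0 ≤ β) (hab : α + β ≤ 1) (hk : 0 ≤ k)
    (hkb : k ≤ b) (hb : 1 ≤ b) :
    (1 - α) ^ 2 + b ^ 2 * β ^ 2 - 2 * (1 - α) * β * k ≤ 1 - α + β * (b ^ 2 - 2 * k) := by
  have h1 : 0 ≤ α * (1 - α - β) := mul_nonneg hα (by linarith)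
  have h2 : 0 ≤ β * (1 - α - β) := mul_nonneg hβ (by linarith)
  have h3 : 0 ≤ α * β := mul_nonneg hα hβ
  have h4 : 0 ≤ (b ^ 2) * (β * (1 - α - β)) := by positivity
  have h5 : 0 ≤ (1 + b ^ 2 - 2 * k) * (α * β) := by
    refine mul_nonneg ?_ h3
    nlinarith
  nlinarith

theorem second_part (x y α β k : ℝ) (hx : 0 ≤ x) (hx1 : x ≤ 1) (hy1 : y ≤ 1)
    (hα : 0 ≤ α) (hβ : 0 ≤ β) (hab : α + β ≤ 1) (hk : 0 ≤ k) (hk1 : k ≤ 1) :
    x * (2 - x - 2 * α - 2 * β * k + 2 * y) ≤ 3 - 2 * α - 2 * β * k := by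
  have h1 : β * k ≤ β := by nlinarith
  have h2 : 0 ≤ (1 - x) * (3 - x - 2 * α - 2 * β * k) := by
    refine mul_nonneg (by linarith) ?_
    nlinarith
  have h3 : x * (2 * y) ≤ x * 2 := mul_le_mul_of_nonneg_left (by linarith) hx
  nlinarith

/-- The two expressions of the square of the distance. -/
theorem sq_bound (b : ℝ) (v1 v2 v3 v4 v5 v6 : V)
    (h12 : ‖v1 - v2‖ = 1) (h23 : ‖v3 - v2‖ = b) (h56 : ‖v6 - v5‖ = 1)
    (α β τ σ α' β' k : ℝ) (hα : 0 ≤ α) (hβ : 0 ≤ β) (hab : α + β ≤ 1) (hτ1 : τ ≤ 1)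
    (hσ1 : σ ≤ 1) (hβ' : 0 ≤ β')
    (hr : v5 + τ • (v6 - v5) = v2 + α • (v1 - v2) + β • (v3 - v2))
    (hp : v2 + σ • (v1 - v2) = v5 + α' • (v6 - v5) + β' • (v4 - v5))
    (hna : k ≤ inner ℝ (v1 - v2) (v3 - v2)) (hmb : k ≤ inner ℝ (v6 - v5) (v4 - v5)) :
    ‖v6 - v1‖ ^ 2 ≤ (1 - α) ^ 2 + b ^ 2 * β ^ 2 - 2 * (1 - α) * β * k +
      (1 - τ) * (2 - (1 - τ) - 2 * α' - 2 * β' * k + 2 * (1 - σ)) := by
  obtain ⟨n, hn⟩ : ∃ n, n = v1 - v2 := ⟨_, rfl⟩
  obtain ⟨a, ha⟩ : ∃ a, a = v3 - v2 := ⟨_, rfl⟩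
  obtain ⟨m, hm⟩ : ∃ m, m = v6 - v5 := ⟨_, rfl⟩
  obtain ⟨c, hc⟩ : ∃ c, c = v4 - v5 := ⟨_, rfl⟩
  rw [← hn, ← ha] at hna
  rw [← hm, ← hc] at hmb
  rw [← hn, ← ha, ← hm] at hr
  rw [← hn, ← hc, ← hm] at hp
  have nn : inner ℝ n n = 1 := by
    rw [real_inner_self_eq_norm_sq, hn, h12]; norm_num
  have aa : inner ℝ a a = b ^ 2 := by
    rw [real_inner_self_eq_norm_sq, ha, h23]
  have mm : inner ℝ m m = 1 := by
    rw [real_inner_self_eq_norm_sq, hm, h56]; norm_num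
  have hD : v6 - v1 = β • a + (1 - τ) • m - (1 - α) • n := by
    have e1 : v6 - v1 = (v5 + τ • m) + (1 - τ) • m - (v2 + n) := by
      rw [hm, hn]; module
    rw [e1, hr]; module
  have hw : β • a = (σ - α) • n + (τ - α') • m - β' • c := by
    have e1 : β • a = (v5 + τ • m) - v2 - α • n := by rw [hr]; abel
    have e2 : v5 = v2 + σ • n - α' • m - β' • c := by rw [hp]; abel
    rw [e1, e2]; module
  have ham : β * inner ℝ a m =
      (σ - α) * inner ℝ n m + (τ - α') - β' * inner ℝ m c := by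
    rw [← real_inner_smul_left, hw, inner_sub_left, inner_add_left, real_inner_smul_left,
      real_inner_smul_left, real_inner_smul_left, mm, real_inner_comm m c]
    ring
  have hnu : -1 ≤ inner ℝ n m := by
    have h1 := abs_real_inner_le_norm n m
    rw [show ‖n‖ = 1 by rw [hn]; exact h12, show ‖m‖ = 1 by rw [hm]; exact h56, mul_one] at h1
    exact (abs_le.1 h1).1
  have hsq : ‖v6 - v1‖ ^ 2 = (1 - α) ^ 2 + b ^ 2 * β ^ 2 + (1 - τ) ^ 2
      - 2 * ((1 - α) * β * inner ℝ n a)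
      - 2 * (1 - α) * (1 - τ) * inner ℝ n m + 2 * (1 - τ) * (β * inner ℝ a m) := by
    rw [← real_inner_self_eq_norm_sq, hD]
    simp only [inner_sub_left, inner_sub_right, inner_add_left, inner_add_right,
      real_inner_smul_left, real_inner_smul_right, nn, aa, mm]
    rw [real_inner_comm n a, real_inner_comm n m, real_inner_comm m a]
    ring
  have h1 : (1 - α) * β * k ≤ (1 - α) * β * inner ℝ n a :=
    mul_le_mul_of_nonneg_left hna (mul_nonneg (by linarith) hβ)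
  have h2 : (1 - τ) * β' * k ≤ (1 - τ) * β' * inner ℝ m c :=
    mul_le_mul_of_nonneg_left hmb (mul_nonneg (by linarith) hβ')
  have h3 : 0 ≤ (1 - τ) * (1 - σ) * (inner ℝ n m + 1) :=
    mul_nonneg (mul_nonneg (by linarith) (by linarith)) (by linarith)
  rw [hsq, ham]
  nlinarith

/-- The reach of the five inner links. -/
theorem reach_b (b : ℝ) (hb : 21 / 20 ≤ b) (v1 v2 v3 v4 v5 v6 : V)
    (h12 : ‖v1 - v2‖ = 1) (h23 : ‖v3 - v2‖ = b) (h34 : ‖v4 - v3‖ = 1) (h45 : ‖v4 - v5‖ = b)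
    (h56 : ‖v6 - v5‖ = 1)
    (hr : ∃ α β τ : ℝ, 0 ≤ α ∧ 0 ≤ β ∧ α + β ≤ 1 ∧ 0 ≤ τ ∧ τ ≤ 1 ∧
      v5 + τ • (v6 - v5) = v2 + α • (v1 - v2) + β • (v3 - v2))
    (hp : ∃ α β σ : ℝ, 0 ≤ α ∧ 0 ≤ β ∧ α + β ≤ 1 ∧ 0 ≤ σ ∧ σ ≤ 1 ∧
      v2 + σ • (v1 - v2) = v5 + α • (v6 - v5) + β • (v4 - v5))
    (hp5 : ∃ s e4 e5 : ℝ, 0 ≤ s ∧ s ≤ 1 ∧ 0 ≤ e4 ∧ 0 ≤ e5 ∧ e4 + e5 ≤ 1 ∧
      v2 + s • (v1 - v2) = v3 + e4 • (v4 - v3) + e5 • (v5 - v3))
    (hr2 : ∃ s e3 e2 : ℝ, 0 ≤ s ∧ s ≤ 1 ∧ 0 ≤ e3 ∧ 0 ≤ e2 ∧ e3 + e2 ≤ 1 ∧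
      v5 + s • (v6 - v5) = v4 + e3 • (v3 - v4) + e2 • (v2 - v4)) :
    ‖v6 - v1‖ ≤ 1 + b := by
  have hb1 : 1 < b := by linarith
  rcases half_b b hb1 v1 v2 v3 v4 v5 v6 h12 h23 h34 h56 hr hp5 with h | hna
  · exact h
  rcases half_b b hb1 v6 v5 v4 v3 v2 v1 h56 h45 (by rw [norm_sub_rev]; exact h34) h12
    hp hr2 with h | hmb
  · rw [norm_sub_rev]; exact h
  obtain ⟨α, β, τ, hα, hβ, hab, hτ, hτ1, hr⟩ := hr
  obtain ⟨α', β', σ, hα', hβ', hab', hσ, hσ1, hp⟩ := hp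
  have hom : ‖v2 - v5‖ = ‖v5 - v2‖ := norm_sub_rev _ _
  rw [hom] at hmb
  have fin : ‖v6 - v1‖ ^ 2 ≤ (1 + b) ^ 2 := by
    by_cases hcase : (3 - 2 * b) / 2 ≤ ‖v5 - v2‖
    · -- large
      obtain ⟨k, hk0, hk1, hk2, hk3, hk4⟩ : ∃ k : ℝ, 0 ≤ k ∧ k ≤ 1 ∧ k ^ 2 ≤ b ^ 2 - 1 ∧
          2 * k ≤ ‖v5 - v2‖ ∧ 3 - 2 * b ≤ 4 * k ∧ 4 * k ≤ b ^ 2 := by
        rcases le_total b (3 / 2) with h | h
        · refine ⟨(3 - 2 * b) / 4, by linarith, by linarith, by nlinarith, by linarith,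
            by linarith, by nlinarith⟩
        · refine ⟨0, le_refl _, by norm_num, by nlinarith, by simp, by linarith, by nlinarith⟩
      have a1 := hna k hk0 hk2 hk3
      have a2 := hmb k hk0 hk2 hk3
      have F1 := sq_bound b v1 v2 v3 v4 v5 v6 h12 h23 h56 α β τ σ α' β' k hα hβ hab hτ1 hσ1 hβ'
        hr hp a1 a2
      have F2 := sq_bound b v6 v5 v4 v3 v2 v1 h56 h45 h12 α' β' σ τ α β k hα' hβ' hab' hσ1 hτ1 hβ
        hp hr a2 a1
      rw [norm_sub_rev v1 v6] at F2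
      have hkb : k ≤ b := by linarith
      have p1 := first_part α β b k hα hβ hab hk0 hkb hb1.le
      have p2 := first_part α' β' b k hα' hβ' hab' hk0 hkb hb1.le
      have s1 := second_part (1 - τ) (1 - σ) α' β' k (by linarith) (by linarith) (by linarith)
        hα' hβ' hab' hk0 hk1
      have s2 := second_part (1 - σ) (1 - τ) α β k (by linarith) (by linarith) (by linarith)
        hα hβ hab hk0 hk1
      have hb4 : 0 ≤ b ^ 2 - 4 * k := by linarith [hk4.2]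
      have hβ1 : β ≤ 1 := by linarith
      have hβ1' : β' ≤ 1 := by linarith
      have t1 : β * (b ^ 2 - 4 * k) ≤ 1 * (b ^ 2 - 4 * k) := mul_le_mul_of_nonneg_right hβ1 hb4
      have t2 : β' * (b ^ 2 - 4 * k) ≤ 1 * (b ^ 2 - 4 * k) := mul_le_mul_of_nonneg_right hβ1' hb4
      have u1 : ‖v6 - v1‖ ^ 2 ≤ (1 - α + β * (b ^ 2 - 2 * k)) + (3 - 2 * α' - 2 * β' * k) := by
        linarith
      have u2 : ‖v6 - v1‖ ^ 2 ≤ (1 - α' + β' * (b ^ 2 - 2 * k)) + (3 - 2 * α - 2 * β * k) := by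
        linarith
      have u3 : (1 + b) ^ 2 = 1 + 2 * b + b ^ 2 := by ring
      have u4 := hk4.1
      rw [u3]
      linarith
    · rw [not_le] at hcase
      obtain ⟨o, ho⟩ : ∃ o, o = ‖v5 - v2‖ := ⟨_, rfl⟩
      have ho0 : 0 ≤ o := by rw [ho]; exact norm_nonneg _
      have hbb : (0 : ℝ) ^ 2 ≤ b ^ 2 - 1 := by nlinarith
      have a1 := hna 0 (le_refl _) hbb (by simp)
      have a2 := hmb 0 (le_refl _) hbb (by simp)
      have F1 := sq_bound b v1 v2 v3 v4 v5 v6 h12 h23 h56 α β τ σ α' β' 0 hα hβ hab hτ1 hσ1 hβ'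
        hr hp a1 a2
      have hbβ : b * β ≤ o + τ + α := by
        have e1 : β • (v3 - v2) = (v5 - v2) + τ • (v6 - v5) - α • (v1 - v2) := by
          have : β • (v3 - v2) = (v2 + α • (v1 - v2) + β • (v3 - v2)) - v2 - α • (v1 - v2) := by
            abel
          rw [this, ← hr]; abel
        have e2 : ‖β • (v3 - v2)‖ = b * β := by
          rw [norm_smul, h23, Real.norm_eq_abs, abs_of_nonneg hβ, mul_comm]
        rw [← e2, e1, ho]
        refine (norm_sub_le _ _).trans (add_le_add ((norm_add_le _ _).trans ?_) ?_)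
        · rw [norm_smul, h56, mul_one, Real.norm_eq_abs, abs_of_nonneg hτ]
        · rw [norm_smul, h12, mul_one, Real.norm_eq_abs, abs_of_nonneg hα]
      rw [← ho] at hcase
      have G1 : ‖v6 - v1‖ ^ 2 ≤ (1 - α) ^ 2 + (b * β) ^ 2 + (1 - τ) * (3 + τ) := by
        have g1 : (1 - τ) * (2 - (1 - τ) - 2 * α' - 2 * β' * 0 + 2 * (1 - σ)) ≤
            (1 - τ) * (3 + τ) := mul_le_mul_of_nonneg_left (by linarith) (by linarith)
        have g0 : (b * β) ^ 2 = b ^ 2 * β ^ 2 := by ring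
        rw [g0]
        linarith
      have hbβ0 : 0 ≤ b * β := mul_nonneg (by linarith) hβ
      by_cases hs : α + τ ≤ 1 - o
      · have g2 : (b * β) ^ 2 ≤ (o + τ + α) ^ 2 := pow_le_pow_left₀ hbβ0 hbβ 2
        have g3 : 0 ≤ τ * (1 - o) := mul_nonneg hτ (by linarith)
        have g4 : 0 ≤ α * (1 - o - α - τ) := mul_nonneg hα (by linarith)
        have g5 : o ^ 2 ≤ ((3 - 2 * b) / 2) ^ 2 := pow_le_pow_left₀ ho0 hcase.le 2
        have g6 : (1 - α) ^ 2 + (o + τ + α) ^ 2 + (1 - τ) * (3 + τ) =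
          4 + o ^ 2 - 2 * (τ * (1 - o)) - 2 * (α * (1 - o - α - τ)) := by ring
        have g7 : (1 + b) ^ 2 - (4 + ((3 - 2 * b) / 2) ^ 2) = 5 * b - 21 / 4 := by ring
        linarith
      · rw [not_le] at hs
        have g2 : (b * β) ^ 2 ≤ (b * (1 - α)) ^ 2 := by
          have : b * β ≤ b * (1 - α) := mul_le_mul_of_nonneg_left (by linarith) (by linarith)
          exact pow_le_pow_left₀ hbβ0 this 2
        have g3 : (1 - α) ^ 2 * (1 + b ^ 2) ≤ (1 - α) * (1 + b ^ 2) := by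
          have : (1 - α) ^ 2 ≤ 1 - α := by nlinarith
          exact mul_le_mul_of_nonneg_right this (by positivity)
        have g4 : 0 ≤ α * (b ^ 2 - 1) := mul_nonneg hα (by linarith)
        have g5 : (1 - α) ^ 2 + (b * (1 - α)) ^ 2 = (1 - α) ^ 2 * (1 + b ^ 2) := by ring
        have g6 : (1 - τ) * (3 + τ) = 3 - 2 * τ - τ ^ 2 := by ring
        have g7 : (1 - α) * (1 + b ^ 2) = 1 + b ^ 2 - 2 * α - α * (b ^ 2 - 1) := by ring
        have g8 : (1 + b) ^ 2 = 1 + 2 * b + b ^ 2 := by ring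
        have g9 := sq_nonneg τ
        rw [g8]
        linarith
  have h0 : 0 ≤ 1 + b := by linarith
  exact (pow_le_pow_iff_left₀ (norm_nonneg _) h0 (by norm_num)).1 fin

end

end Pool.Agent.LKU.H72
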