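import Pool.Agent.LKU.Stmts
import Pool.Agent.Helper79_LKT.ALL

/-!
# Squad LKU (MP_e0fe99_lc): the theorem for inner links of length `u`
-/

set_option autoImplicit false

namespace Pool.Agent.LKU.H72

open Pool.Agent.LCK Pool.Agent.LKT

theorem scl (h : ExcStmt) (n : ℕ) (l : Fin n → ℝ) (hl : ∀ k, 0 < l k) (s : ℕ) (hs : s + 7 ≤ n)
    (u : ℝ) (h1 : l ⟨s + 1, by omega⟩ = u) (h2 : l ⟨s + 2, by omega⟩ = u)
    (h3 : l ⟨s + 3, by omega⟩ = u) (h4 : l ⟨s + 4, by omega⟩ = u) (h5 : l ⟨s + 5, by omega⟩ = u)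
    (h06 : (2 * u < l ⟨s, by omega⟩ ∧ Real.sqrt 5 * u < l ⟨s + 6, by omega⟩) ∨
      (Real.sqrt 5 * u < l ⟨s, by omega⟩ ∧ 2 * u < l ⟨s + 6, by omega⟩)) : Locked l := by
  have hu : 0 < u := by rw [← h1]; exact hl _
  have hu' : 0 < u⁻¹ := inv_pos.2 hu
  have hlt : ∀ (c : ℝ) (k : Fin n), c * u < l k → c < u⁻¹ * l k := by
    intro c k hk
    rw [inv_mul_eq_div, lt_div_iff₀ hu]
    exact hk
  have heq : ∀ k : Fin n, l k = u → u⁻¹ * l k = 1 := by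
    intro k hk
    rw [hk, inv_mul_cancel₀ hu.ne']
  refine H79.locked_of_scaled l u⁻¹ hu' ?_
  refine h n (fun k => u⁻¹ * l k) s hs (fun k => mul_pos hu' (hl k)) ?_ (heq _ h1) (heq _ h2)
    (heq _ h3) (heq _ h4) (heq _ h5)
  rcases h06 with ⟨ha, hb⟩ | ⟨ha, hb⟩
  · exact Or.inl ⟨hlt _ _ ha, hlt _ _ hb⟩
  · exact Or.inr ⟨hlt _ _ ha, hlt _ _ hb⟩

end Pool.Agent.LKU.H72
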